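import Pool.Agent.Y799.IG

set_option autoImplicit false

/-!
# Chromatic number `ℵ₀` for irreducible generating sets, in every infinite cardinality

The starting result `IrreducibleUnbounded` gives, for every `m`, a finite group with an irreducible
generating set whose Cayley graph is not `m`-colourable.  Here it is used (copied to
`Pool.Agent.Y799.IG`) to build ONE group with an irreducible generating set and infinite chromatic
number, and this in every infinite cardinality: the restricted direct product of these groups and of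
groups of order two.
-/

namespace Pool.Agent.Results.MP_696765_co.EveryInfiniteCardinal

open Pool.Agent.Y799.IG Cardinal

section Sum

variable {I : Type} [DecidableEq I] (F : I → Type) [∀ i, Group (F i)] (H : ∀ i, Set (F i))

/-- the generators: the functions with one value in `H i` and all the others trivial -/
def gens : Set (∀ i, F i) := ⋃ i, (Pi.mulSingle i) '' (H i)

/-- the restricted product -/
def K : Subgroup (∀ i, F i) := Subgroup.closure (gens F H)

/-- the generators inside the restricted product -/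
def Hs : Set (K F H) := {x | (x : ∀ i, F i) ∈ gens F H}

variable {F H}

lemma closure_Hs : Subgroup.closure (Hs F H) = ⊤ :=
  Subgroup.closure_closure_coe_preimage

lemma mulSingle_mem {i : I} (hi : Subgroup.closure (H i) = ⊤) (a : F i) :
    Pi.mulSingle i a ∈ K F H := by
  have h1 : Subgroup.map (MonoidHom.mulSingle F i) (Subgroup.closure (H i)) ≤ K F H := by
    rw [MonoidHom.map_closure]
    apply Subgroup.closure_mono
    rintro _ ⟨b, hb, rfl⟩
    exact Set.mem_iUnion.2 ⟨i, b, hb, rfl⟩
  apply h1
  rw [hi]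
  exact ⟨a, trivial, rfl⟩

lemma irred (hH : ∀ i, IsIrreducibleGeneratingSet (H i)) :
    IsIrreducibleGeneratingSet (Hs F H) := by
  refine ⟨closure_Hs, ?_⟩
  intro h hh hcl
  obtain ⟨i, a, ha, hai⟩ := Set.mem_iUnion.1 hh
  apply (hH i).2 a ha
  rw [eq_top_iff]
  intro x _
  let π : K F H →* F i := (Pi.evalMonoidHom F i).comp (K F H).subtype
  have h1 : Subgroup.map π ⊤ ≤ Subgroup.closure (H i \ {a}) := by
    rw [← hcl, MonoidHom.map_closure, Subgroup.closure_le]
    rintro _ ⟨y, ⟨hy, hyh⟩, rfl⟩
    obtain ⟨j, b, hb, hbj⟩ := Set.mem_iUnion.1 hy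
    have h2 : π y = (Pi.mulSingle j b : ∀ i, F i) i := by rw [hbj]; rfl
    rw [h2]
    by_cases hji : j = i
    · subst hji
      rw [Pi.mulSingle_eq_same]
      apply Subgroup.subset_closure
      refine ⟨hb, ?_⟩
      rintro rfl
      apply hyh
      apply Subtype.ext
      rw [← hbj, ← hai]
    · rw [Pi.mulSingle_eq_of_ne (Ne.symm hji)]
      exact Subgroup.one_mem _
  apply h1
  refine ⟨⟨Pi.mulSingle i x, mulSingle_mem (hH i).1 x⟩, trivial, ?_⟩
  show (Pi.mulSingle i x : ∀ i, F i) i = x
  exact Pi.mulSingle_eq_same i x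

lemma colorable_of (hH : ∀ i, IsIrreducibleGeneratingSet (H i)) (i : I) (n : ℕ)
    (h : (CayleyGraph (Hs F H)).Colorable n) : (CayleyGraph (H i)).Colorable n := by
  obtain ⟨c⟩ := h
  let e : F i → K F H := fun x => ⟨Pi.mulSingle i x, mulSingle_mem (hH i).1 x⟩
  have he : ∀ x y : F i, x ≠ y → e x ≠ e y := by
    intro x y hxy h1
    apply hxy
    have h2 := congrArg (fun z : K F H => (z : ∀ i, F i) i) h1
    simpa [e] using h2
  have key : ∀ x y : F i, x ≠ y → (∃ h ∈ H i, y = h * x) → c (e x) ≠ c (e y) := by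
    rintro x y hxy ⟨h, hh, rfl⟩
    apply c.valid
    refine ⟨he _ _ hxy, ⟨Pi.mulSingle i h, mulSingle_mem (hH i).1 h⟩, ?_, Or.inl ?_⟩
    · exact Set.mem_iUnion.2 ⟨i, h, hh, rfl⟩
    · apply Subtype.ext
      show Pi.mulSingle i (h * x) = Pi.mulSingle i h * Pi.mulSingle i x
      rw [Pi.mulSingle_mul]
  refine ⟨SimpleGraph.Coloring.mk (fun x => c (e x)) ?_⟩
  intro x y hxy heq
  obtain ⟨hne, h, hh, h2 | h2⟩ := hxy
  · exact key x y hne ⟨h, hh, h2⟩ heq
  · exact key y x hne.symm ⟨h, hh, h2⟩ heq.symm

lemma finite_supp (x : K F H) : {i | (x : ∀ i, F i) i ≠ 1}.Finite := by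
  let S : Subgroup (∀ i, F i) :=
    { carrier := {x | {i | x i ≠ 1}.Finite}
      mul_mem' := by
        intro a b ha hb
        refine (ha.union hb).subset ?_
        intro i hi
        by_contra hn
        simp only [Set.mem_union, Set.mem_ofPred_eq, not_or, not_not] at hn
        apply hi
        rw [Pi.mul_apply, hn.1, hn.2, one_mul]
      one_mem' := by simp
      inv_mem' := by
        intro a ha
        refine Set.Finite.subset ha ?_
        intro i hi h1
        apply hi
        rw [Pi.inv_apply, h1, inv_one] }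
  have h1 : K F H ≤ S := by
    unfold K
    rw [Subgroup.closure_le]
    intro y hy
    obtain ⟨j, b, hb, rfl⟩ := Set.mem_iUnion.1 hy
    refine (Set.finite_singleton j).subset ?_
    intro i hi
    by_contra hn
    exact hi (Pi.mulSingle_eq_of_ne hn b)
  exact h1 x.2

lemma locallyFinite [∀ i, Finite (F i)] (T : Set (K F H)) (hT : T.Finite) :
    Finite (Subgroup.closure T) := by
  let J : Set I := ⋃ x ∈ T, {i | (x : ∀ i, F i) i ≠ 1}
  have hJ : J.Finite := hT.biUnion fun x _ => finite_supp x
  let S : Subgroup (K F H) :=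
    { carrier := {x | ∀ i, i ∉ J → (x : ∀ i, F i) i = 1}
      mul_mem' := by
        intro a b ha hb i hi
        show (a : ∀ i, F i) i * (b : ∀ i, F i) i = 1
        rw [ha i hi, hb i hi, one_mul]
      one_mem' := fun i _ => rfl
      inv_mem' := by
        intro a ha i hi
        show ((a : ∀ i, F i) i)⁻¹ = 1
        rw [ha i hi, inv_one] }
  have h1 : Subgroup.closure T ≤ S := by
    rw [Subgroup.closure_le]
    intro x hx i hi
    by_contra hn
    exact hi (Set.mem_biUnion hx hn)
  have : Finite J := hJ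
  have h2 : Finite S := by
    refine Finite.of_injective (fun (x : S) (i : J) => (x.1 : ∀ i, F i) i.1) ?_
    intro x y hxy
    apply Subtype.ext
    apply Subtype.ext
    funext i
    by_cases hi : i ∈ J
    · exact congrFun hxy ⟨i, hi⟩
    · rw [x.2 i hi, y.2 i hi]
  exact Finite.of_injective (Subgroup.inclusion h1) (Subgroup.inclusion_injective h1)

/-- the graph of a function over its support -/
noncomputable def code {J : Type} {E : J → Type} [∀ j, One (E j)]
    (x : ∀ j, E j) (hx : {i | x i ≠ 1}.Finite) : Finset (Σ i, E i) := by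
  classical exact hx.toFinset.image (fun i => (⟨i, x i⟩ : Σ i, E i))

lemma mem_code {J : Type} {E : J → Type} [∀ j, One (E j)]
    (x : ∀ j, E j) (hx : {i | x i ≠ 1}.Finite) (i : J) (a : E i) :
    (⟨i, a⟩ : Σ i, E i) ∈ code x hx ↔ x i ≠ 1 ∧ a = x i := by
  classical
  unfold code
  rw [Finset.mem_image]
  constructor
  · rintro ⟨j, hj, h⟩
    rw [Set.Finite.mem_toFinset] at hj
    cases h
    exact ⟨hj, rfl⟩
  · rintro ⟨h1, rfl⟩
    exact ⟨i, (Set.Finite.mem_toFinset _).2 h1, rfl⟩

lemma code_inj {J : Type} {E : J → Type} [∀ j, One (E j)]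
    (x y : ∀ j, E j) (hx : {i | x i ≠ 1}.Finite) (hy : {i | y i ≠ 1}.Finite)
    (h : code x hx = code y hy) : x = y := by
  funext i
  by_cases h1 : x i = 1
  · by_contra h2
    have h3 : (⟨i, y i⟩ : Σ i, E i) ∈ code y hy :=
      (mem_code y hy i _).2 ⟨fun h4 => h2 (by rw [h1, h4]), rfl⟩
    rw [← h, mem_code] at h3
    exact h3.1 h1
  · have h3 : (⟨i, x i⟩ : Σ i, E i) ∈ code x hx := (mem_code x hx i _).2 ⟨h1, rfl⟩
    rw [h, mem_code] at h3
    exact h3.2

end Sum

section Main

variable (G : ℕ → Type) [∀ m, Group (G m)] (J : Type)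

/-- the factors -/
def FF : ℕ ⊕ J → Type
  | .inl m => G m
  | .inr _ => Multiplicative (ZMod 2)

instance : ∀ i, Group (FF G J i)
  | .inl m => inferInstanceAs (Group (G m))
  | .inr _ => inferInstanceAs (Group (Multiplicative (ZMod 2)))

instance [∀ m, Finite (G m)] : ∀ i, Finite (FF G J i)
  | .inl m => inferInstanceAs (Finite (G m))
  | .inr _ => inferInstanceAs (Finite (ZMod 2))

variable {G}

/-- the generating sets of the factors -/
def HH (H : ∀ m, Set (G m)) : ∀ i, Set (FF G J i)
  | .inl m => H m
  | .inr _ => {(Multiplicative.ofAdd (1 : ZMod 2) : Multiplicative (ZMod 2))}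

variable {J}

lemma irred_two : IsIrreducibleGeneratingSet
    ({(Multiplicative.ofAdd (1 : ZMod 2) : Multiplicative (ZMod 2))} :
      Set (Multiplicative (ZMod 2))) := by
  constructor
  · rw [eq_top_iff]
    have h2 : ∀ x : Multiplicative (ZMod 2),
        x = 1 ∨ x = (Multiplicative.ofAdd (1 : ZMod 2) : Multiplicative (ZMod 2)) := by
      decide
    intro x _
    have h1 : (Multiplicative.ofAdd (1 : ZMod 2) : Multiplicative (ZMod 2)) ∈
      Subgroup.closure ({(Multiplicative.ofAdd (1 : ZMod 2) : Multiplicative (ZMod 2))} :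
        Set (Multiplicative (ZMod 2))) := Subgroup.subset_closure rfl
    rcases h2 x with rfl | rfl
    · exact Subgroup.one_mem _
    · exact h1
  · rintro h rfl hcl
    rw [Set.sdiff_self, Subgroup.closure_empty] at hcl
    have h1 : (Multiplicative.ofAdd (1 : ZMod 2) : Multiplicative (ZMod 2)) ∈
        (⊥ : Subgroup (Multiplicative (ZMod 2))) := by rw [hcl]; trivial
    rw [Subgroup.mem_bot] at h1
    exact absurd h1 (by decide)

lemma irred_HH {H : ∀ m, Set (G m)} (hH : ∀ m, IsIrreducibleGeneratingSet (H m)) :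
    ∀ i : ℕ ⊕ J, IsIrreducibleGeneratingSet (HH J H i)
  | .inl m => hH m
  | .inr _ => irred_two

/-- the value at a point of the second kind, as an element of the group of order two -/
def val (x : ∀ i, FF G J i) (j : J) : Multiplicative (ZMod 2) := x (.inr j)

/-- the values at the points of the first kind -/
def fst (x : ∀ i, FF G J i) (m : ℕ) : G m := x (.inl m)

lemma val_supp {x : ∀ i, FF G J i} (hx : {i | x i ≠ 1}.Finite) :
    (Function.mulSupport (val x)).Finite := by
  have h1 := hx.preimage (f := (Sum.inr : J → ℕ ⊕ J)) Sum.inr_injective.injOn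
  exact h1

lemma fst_supp {x : ∀ i, FF G J i} (hx : {i | x i ≠ 1}.Finite) :
    {m | fst x m ≠ 1}.Finite := by
  have h1 := hx.preimage (f := (Sum.inl : ℕ → ℕ ⊕ J)) Sum.inl_injective.injOn
  exact h1

variable [DecidableEq J]

/-- the colour -/
noncomputable def col (H : ∀ m, Set (G m)) (x : K (FF G J) (HH J H)) :
    Finset (Σ m, G m) × Multiplicative (ZMod 2) :=
  (code (fst x.1) (fst_supp (finite_supp x)), ∏ᶠ j, val x.1 j)

lemma col_ne {H : ∀ m, Set (G m)} (hH : ∀ m, IsIrreducibleGeneratingSet (H m))
    (x y h : K (FF G J) (HH J H)) (hh : h ∈ Hs (FF G J) (HH J H)) (hy : y = h * x) :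
    col H x ≠ col H y := by
  intro heq
  obtain ⟨i, a, ha, hai⟩ := Set.mem_iUnion.1 hh
  unfold col at heq
  rw [Prod.mk.injEq] at heq
  obtain ⟨h1, h2⟩ := heq
  rcases i with m | j
  · have h3 := congrFun (code_inj _ _ _ _ h1) m
    have h4 : fst y.1 m = fst h.1 m * fst x.1 m := by
      rw [hy]; rfl
    have h5 : fst h.1 m = a := by
      show h.1 (Sum.inl m) = a
      rw [← hai, Pi.mulSingle_eq_same]
    rw [h4] at h3
    have h6 : fst h.1 m = 1 := right_eq_mul.1 h3
    apply one_notMem_of_irreducible (hH m)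
    rw [← h6, h5]
    exact ha
  · have h4 : ∀ j', val y.1 j' = val h.1 j' * val x.1 j' := by
      intro j'; rw [hy]; rfl
    have h5 : ∏ᶠ j', val y.1 j' = (∏ᶠ j', val h.1 j') * ∏ᶠ j', val x.1 j' := by
      rw [← finprod_mul_distrib (val_supp (finite_supp h)) (val_supp (finite_supp x))]
      exact finprod_congr h4
    have h6 : ∏ᶠ j', val h.1 j' = val h.1 j := by
      apply finprod_eq_single
      intro j' hj'
      show h.1 (Sum.inr j') = 1
      rw [← hai]
      exact Pi.mulSingle_eq_of_ne (fun h => hj' (Sum.inr_injective h)) a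
    have h7 : val h.1 j = (Multiplicative.ofAdd (1 : ZMod 2) : Multiplicative (ZMod 2)) := by
      show h.1 (Sum.inr j) = _
      rw [← hai, Pi.mulSingle_eq_same]
      exact ha
    rw [h5, h6, h7] at h2
    have h8 : ∀ z : Multiplicative (ZMod 2),
      z ≠ (Multiplicative.ofAdd (1 : ZMod 2) : Multiplicative (ZMod 2)) * z := by decide
    exact h8 _ h2

lemma coloring [∀ m, Finite (G m)] {H : ∀ m, Set (G m)}
    (hH : ∀ m, IsIrreducibleGeneratingSet (H m)) :
    Nonempty ((CayleyGraph (Hs (FF G J) (HH J H))).Coloring ℕ) := by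
  have : Countable (Finset (Σ m, G m) × Multiplicative (ZMod 2)) := by
    have : Countable (Multiplicative (ZMod 2)) := inferInstanceAs (Countable (ZMod 2))
    infer_instance
  obtain ⟨f, hf⟩ := exists_injective_nat (Finset (Σ m, G m) × Multiplicative (ZMod 2))
  refine ⟨SimpleGraph.Coloring.mk (fun x => f (col H x)) ?_⟩
  intro x y hxy heq
  obtain ⟨-, h, hh, h1 | h1⟩ := hxy
  · exact col_ne hH x y h hh h1 (hf heq)
  · exact col_ne hH y x h hh h1 (hf heq).symm

lemma card_le [∀ m, Finite (G m)] (H : ∀ m, Set (G m)) (κ : Cardinal.{0}) (hκ : ℵ₀ ≤ κ)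
    (hJ : #J = κ) : #(K (FF G J) (HH J H)) = κ := by
  apply le_antisymm
  · have h1 : #(K (FF G J) (HH J H)) ≤ #(Finset (Σ i, FF G J i)) := by
      apply Cardinal.mk_le_of_injective
        (f := fun x : K (FF G J) (HH J H) => code x.1 (finite_supp x))
      intro x y h
      exact Subtype.ext (code_inj _ _ _ _ h)
    have h2 : #(Σ i, FF G J i) ≤ κ := by
      rw [Cardinal.mk_sigma]
      calc Cardinal.sum (fun i => #(FF G J i)) ≤ Cardinal.sum (fun _ : ℕ ⊕ J => ℵ₀) := by
            apply Cardinal.sum_le_sum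
            intro i
            exact Cardinal.mk_le_aleph0
        _ = #(ℕ ⊕ J) * ℵ₀ := by simp
        _ = κ := by
            rw [Cardinal.mk_sum]
            simp [hJ, Cardinal.add_eq_right hκ hκ, hκ]
    have h3 : #(Finset (Σ i, FF G J i)) ≤ κ := by
      rcases finite_or_infinite (Σ i, FF G J i) with h | h
      · exact le_trans (le_of_lt (Cardinal.lt_aleph0_of_finite _)) hκ
      · rw [Cardinal.mk_finset_of_infinite]; exact h2
    exact h1.trans h3
  · rw [← hJ]
    have hirr : Subgroup.closure
        ({(Multiplicative.ofAdd (1 : ZMod 2) : Multiplicative (ZMod 2))} :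
          Set (Multiplicative (ZMod 2))) = ⊤ := irred_two.1
    apply Cardinal.mk_le_of_injective
      (f := fun j : J => (⟨Pi.mulSingle (Sum.inr j)
        (Multiplicative.ofAdd (1 : ZMod 2) : Multiplicative (ZMod 2)),
        mulSingle_mem (F := FF G J) (H := HH J H) (i := Sum.inr j) hirr _⟩ :
          K (FF G J) (HH J H)))
    intro j j' h
    by_contra hne
    have h1 := congrArg (fun z : K (FF G J) (HH J H) => (z : ∀ i, FF G J i) (Sum.inr j)) h
    have h2 : (Pi.mulSingle (Sum.inr j)
        (Multiplicative.ofAdd (1 : ZMod 2) : Multiplicative (ZMod 2)) :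
          ∀ i, FF G J i) (Sum.inr j) = (Multiplicative.ofAdd (1 : ZMod 2) : Multiplicative (ZMod 2)) :=
      Pi.mulSingle_eq_same _ _
    have h3 : (Pi.mulSingle (Sum.inr j')
        (Multiplicative.ofAdd (1 : ZMod 2) : Multiplicative (ZMod 2)) :
          ∀ i, FF G J i) (Sum.inr j) = 1 :=
      Pi.mulSingle_eq_of_ne (fun h => hne (Sum.inr_injective h)) _
    have h4 : (Multiplicative.ofAdd (1 : ZMod 2) : Multiplicative (ZMod 2)) = 1 :=
      h2.symm.trans (Eq.trans h1 h3)
    exact absurd h4 (by decide)

end Main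

/-- For every infinite cardinal `κ` there is a group `G` with `κ` elements, all of whose finitely
generated subgroups are finite, and an irreducible generating set `H` of `G` (`H` generates `G` and
no `H \ {h}` with `h ∈ H` does; then `1 ∉ H`) such that the Cayley graph of `G` with respect to `H`
has no colouring with finitely many colours and has one with countably many: its chromatic number is
exactly `ℵ₀`, the largest value allowed by the known bound. -/
theorem result (κ : Cardinal.{0}) (hκ : ℵ₀ ≤ κ) :
    ∃ (G : Type) (_ : Group G) (H : Set G),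
      #G = κ ∧ (∀ T : Set G, T.Finite → Finite (Subgroup.closure T)) ∧
      (1 : G) ∉ H ∧ IsIrreducibleGeneratingSet H ∧
      (∀ n : ℕ, ¬ (CayleyGraph H).Colorable n) ∧
      Nonempty ((CayleyGraph H).Coloring ℕ) := by
  classical
  choose G hG hF H hH hm using main
  refine ⟨K (FF G κ.out) (HH κ.out H), inferInstance, Hs (FF G κ.out) (HH κ.out H),
    card_le H κ hκ (Cardinal.mk_out κ), fun T hT => locallyFinite T hT,
    one_notMem_of_irreducible (irred (irred_HH hH)), irred (irred_HH hH), ?_, coloring hH⟩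
  intro n hn
  exact hm n (colorable_of (irred_HH hH) (Sum.inl n) n hn)

end Pool.Agent.Results.MP_696765_co.EveryInfiniteCardinal
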